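import Pool.Agent.R221.Om.Final

set_option autoImplicit false

open Filter Topology Set
open scoped ENNReal NNReal

namespace Pool.Agent.R733.AS

open Pool.Agent.R221.Om

/-- The Assouad spectrum `dim_A^θ F`. -/
noncomputable def dimSpec (θ : ℝ) (F : Set Plane) : ℝ≥0∞ :=
  ⨅ (β : ℝ≥0) (_ : ∃ C : ℝ, 0 < C ∧ ∀ r : ℝ, 0 < r → r < 1 → ∀ x ∈ F,
    ((packNum r (Metric.ball x (r ^ θ) ∩ F) : ℕ∞) : ℝ≥0∞) ≤
      ENNReal.ofReal (C * (r ^ (θ - 1)) ^ (β : ℝ))),
    (β : ℝ≥0∞)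

lemma dimSpec_le {θ : ℝ} {F : Set Plane} {β : ℝ≥0} {C : ℝ} (hC : 0 < C)
    (h : ∀ r : ℝ, 0 < r → r < 1 → ∀ x ∈ F, ∀ T : Finset Plane,
      (T : Set Plane) ⊆ Metric.ball x (r ^ θ) ∩ F →
      (∀ p ∈ T, ∀ q ∈ T, p ≠ q → 2 * r < dist p q) →
      (T.card : ℝ) ≤ C * (r ^ (θ - 1)) ^ (β : ℝ)) :
    dimSpec θ F ≤ β := by
  refine iInf₂_le _ ⟨C, hC, fun r hr hr1 x hx => ?_⟩
  set B : ℕ := ⌊C * (r ^ (θ - 1)) ^ (β : ℝ)⌋₊ with hB
  have hnn : 0 ≤ C * (r ^ (θ - 1)) ^ (β : ℝ) := by positivity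
  have h1 : packNum r (Metric.ball x (r ^ θ) ∩ F) ≤ (B : ℕ∞) := by
    refine iSup₂_le fun T hT => ?_
    have h2 := h r hr hr1 x hx T hT.1 (fun p hp q hq hpq => by
      by_contra hle
      rw [not_lt] at hle
      have hd : Disjoint (Metric.closedBall p r) (Metric.closedBall q r) := hT.2 hp hq hpq
      have m1 : midpoint ℝ p q ∈ Metric.closedBall p r := by
        rw [Metric.mem_closedBall, dist_midpoint_left]
        simp only [Real.norm_ofNat]
        linarith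
      have m2 : midpoint ℝ p q ∈ Metric.closedBall q r := by
        rw [Metric.mem_closedBall, dist_midpoint_right]
        simp only [Real.norm_ofNat]
        linarith
      exact Set.disjoint_left.1 hd m1 m2)
    have h3 : T.card ≤ B := Nat.le_floor h2
    exact_mod_cast h3
  have h2 : ((packNum r (Metric.ball x (r ^ θ) ∩ F) : ℕ∞) : ℝ≥0∞) ≤ ((B : ℕ∞) : ℝ≥0∞) :=
    ENat.toENNReal_le.2 h1
  refine h2.trans ?_
  rw [ENat.toENNReal_coe, ← ENNReal.ofReal_natCast]
  exact ENNReal.ofReal_le_ofReal (Nat.floor_le hnn)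

section main

variable {G : ℝ → ℝ} {K c : ℝ} {M : ℕ} {s : ℝ}

/-- the constant -/
noncomputable def C2 (K c : ℝ) (M : ℕ) : ℝ := 2 * (2 * K + 1) * (M + (8 / c) ^ 2 + 1)

variable (hG : Rough G K c) (hM2 : 2 ≤ M) (hMK : (4 * K / c) ^ 2 ≤ M) (hs : 1 / 2 ≤ s)
  (hs1 : s < 1) (hMs : (M : ℝ) - 1 ≤ (M : ℝ) ^ s)
  {T : Finset Plane} {r R y0 : ℝ} (hr : 0 < r) (hrR : r < R) (hrR2 : r ≤ R ^ 2)
  (hT0 : ∀ p ∈ T, p 0 ∈ Icc (0 : ℝ) 1 ∧ p 1 = G (p 0) ∧ |p 1 - y0| ≤ R)
  (hsep : ∀ p ∈ T, ∀ q ∈ T, p ≠ q → 2 * r < dist p q)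

/-- the bound without any porosity -/
lemma small_bound {K ρ r w R D s : ℝ} (hK : 1 ≤ K) (hw : w = Real.sqrt r) (hr : 0 < r)
    (hρr : r ≤ ρ) (hρ1 : ρ ≤ 1) (hs0 : 1 / 2 ≤ s) (hs1 : s < 1) (hR : 0 < R) (hD : 1 ≤ D)
    (hρD : ρ ≤ D * R ^ 2) :
    (ρ / r + 1) * (2 * (K * w) / r + 1) ≤
      2 * (2 * K + 1) * D * (ρ ^ s * (R ^ 2) ^ (1 - s) * (r * w)⁻¹) := by
  have hρ0 : 0 < ρ := lt_of_lt_of_le hr hρr
  have hw0 : 0 < w := by rw [hw]; exact Real.sqrt_pos.2 hr
  have hrw : r = w ^ 2 := by rw [hw]; exact (Real.sq_sqrt hr.le).symm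
  have hw1 : w ≤ 1 := by rw [hw]; exact Real.sqrt_le_one.2 (hρr.trans hρ1)
  have hq1 : 1 ≤ ρ / r := (one_le_div hr).2 hρr
  have e1 : ρ / r + 1 ≤ 2 * (ρ / r) := by linarith
  have e2 : 2 * (K * w) / r + 1 ≤ (2 * K + 1) / w := by
    rw [hrw, le_div_iff₀ hw0]
    have : (2 * (K * w) / w ^ 2 + 1) * w = 2 * K + w := by field_simp
    rw [this]; linarith
  have e3 : 0 ≤ 2 * (K * w) / r + 1 := by positivity
  have e4 := mul_le_mul e1 e2 e3 (by positivity)
  refine e4.trans ?_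
  have e5 : ρ = ρ ^ s * ρ ^ (1 - s) := by
    rw [← Real.rpow_add hρ0]
    simp
  have e6 : ρ ^ (1 - s) ≤ D * (R ^ 2) ^ (1 - s) := by
    calc ρ ^ (1 - s) ≤ (D * R ^ 2) ^ (1 - s) :=
          Real.rpow_le_rpow hρ0.le hρD (by linarith)
      _ = D ^ (1 - s) * (R ^ 2) ^ (1 - s) := Real.mul_rpow (by linarith) (by positivity)
      _ ≤ D ^ (1 : ℝ) * (R ^ 2) ^ (1 - s) := by
          have := Real.rpow_le_rpow_of_exponent_le hD (show 1 - s ≤ 1 by linarith)
          exact mul_le_mul_of_nonneg_right this (by positivity)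
      _ = _ := by rw [Real.rpow_one]
  have e7 : 2 * (ρ / r) * ((2 * K + 1) / w) = 2 * (2 * K + 1) * (r * w)⁻¹ * ρ := by
    field_simp
  rw [e7]
  calc 2 * (2 * K + 1) * (r * w)⁻¹ * ρ = 2 * (2 * K + 1) * (r * w)⁻¹ * ρ ^ s * ρ ^ (1 - s) := by
        rw [mul_assoc (2 * (2 * K + 1) * (r * w)⁻¹), ← e5]
    _ ≤ 2 * (2 * K + 1) * (r * w)⁻¹ * ρ ^ s * (D * (R ^ 2) ^ (1 - s)) :=
        mul_le_mul_of_nonneg_left e6 (by positivity)
    _ = _ := by ring

include hG hM2 hMK hs hs1 hMs hr hrR hrR2 hT0 hsep in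
lemma scales2 (N : ℕ) : ∀ ρ : ℝ, r ≤ ρ → ρ ≤ 1 → ρ < (M : ℝ) ^ N * r → ∀ a : ℝ, 0 ≤ a →
    a + ρ ≤ 1 → ((part T a ρ).card : ℝ) ≤
      C2 K c M * (ρ ^ s * (R ^ 2) ^ (1 - s) * (r * Real.sqrt r)⁻¹) := by
  have hR : 0 < R := hr.trans hrR
  have hc := hG.c_pos
  have hK : 0 < K := lt_of_lt_of_le one_pos hG.K_ge
  have hM0 : (0 : ℝ) < M := by exact_mod_cast (by omega : 0 < M)
  have hM1 : (1 : ℝ) ≤ M := by exact_mod_cast (by omega : 1 ≤ M)
  have hw0 : 0 < Real.sqrt r := Real.sqrt_pos.2 hr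
  have hC2 : 0 ≤ C2 K c M := by unfold C2; positivity
  induction N with
  | zero => intro ρ h1 _ h2; simp at h2; linarith
  | succ N ih =>
    intro ρ hρr hρ1 hρN a ha haρ
    have hρ0 : 0 < ρ := lt_of_lt_of_le hr hρr
    by_cases hA : ρ < M * r
    · -- small scale
      have h1 := direct2 (a := a) hG hr hT0 hsep hρ0.le ha haρ
      have h2 := small_bound (D := M) hG.K_ge rfl hr hρr hρ1 hs hs1 hR hM1
        (hA.le.trans (mul_le_mul_of_nonneg_left hrR2 hM0.le))
      refine h1.trans (h2.trans ?_)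
      refine mul_le_mul_of_nonneg_right ?_ (by positivity)
      unfold C2
      refine mul_le_mul_of_nonneg_left ?_ (by positivity)
      have : 0 ≤ (8 / c) ^ 2 := by positivity
      linarith
    · rw [not_lt] at hA
      by_cases hB : c * Real.sqrt ρ < 8 * R
      · -- below the level window
        have h1 := direct2 (a := a) hG hr hT0 hsep hρ0.le ha haρ
        have h3 : ρ ≤ ((8 / c) ^ 2 + 1) * R ^ 2 := by
          have e1 : Real.sqrt ρ ≤ 8 / c * R := by
            rw [div_mul_eq_mul_div, le_div_iff₀ hc]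
            linarith
          have e2 : ρ = Real.sqrt ρ ^ 2 := (Real.sq_sqrt hρ0.le).symm
          have e3 : Real.sqrt ρ ^ 2 ≤ (8 / c * R) ^ 2 := by gcongr
          nlinarith [sq_nonneg R]
        have h2 := small_bound (D := (8 / c) ^ 2 + 1) hG.K_ge rfl hr hρr hρ1 hs hs1 hR
          (by have : 0 ≤ (8 / c) ^ 2 := by positivity
              linarith) h3
        refine h1.trans (h2.trans ?_)
        refine mul_le_mul_of_nonneg_right ?_ (by positivity)
        unfold C2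
        refine mul_le_mul_of_nonneg_left ?_ (by positivity)
        linarith
      · -- porosity
        rw [not_lt] at hB
        have hρM : r ≤ ρ / M := by rw [le_div_iff₀ hM0]; linarith
        have hρM1 : ρ / M ≤ 1 := by
          rw [div_le_iff₀ hM0]; linarith
        have hρMN : ρ / M < (M : ℝ) ^ N * r := by
          rw [div_lt_iff₀ hM0]
          rw [pow_succ] at hρN
          linarith
        have hd : 0 < ρ / M := by positivity
        have hMd : (M : ℝ) * (ρ / M) = ρ := by field_simp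
        have hsubi : ∀ i < M, 0 ≤ a + i * (ρ / M) ∧ a + i * (ρ / M) + ρ / M ≤ 1 := by
          intro i hi
          have e1 : (i : ℝ) + 1 ≤ M := by exact_mod_cast hi
          constructor
          · positivity
          · have : (i : ℝ) * (ρ / M) + ρ / M ≤ ρ := by
              calc (i : ℝ) * (ρ / M) + ρ / M = (i + 1) * (ρ / M) := by ring
                _ ≤ M * (ρ / M) := by gcongr
                _ = ρ := hMd
            linarith
        have hstep := subdivide (T := T) (a := a) (ρ := ρ)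
          (B := C2 K c M * ((ρ / M) ^ s * (R ^ 2) ^ (1 - s) * (r * Real.sqrt r)⁻¹))
          (by omega : 0 < M) hρ0
          (fun i hi => ih (ρ / M) hρM hρM1 hρMN _ (hsubi i hi).1 (hsubi i hi).2) ?_
        · refine hstep.trans ?_
          rw [Real.div_rpow hρ0.le hM0.le]
          have e2 : ((M : ℝ) - 1) * (C2 K c M * (ρ ^ s / (M : ℝ) ^ s * (R ^ 2) ^ (1 - s) *
              (r * Real.sqrt r)⁻¹)) =
            ((M - 1) / (M : ℝ) ^ s) * (C2 K c M * (ρ ^ s * (R ^ 2) ^ (1 - s) *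
              (r * Real.sqrt r)⁻¹)) := by
            have : (M : ℝ) ^ s ≠ 0 := by positivity
            field_simp
          rw [e2]
          have e3 : ((M : ℝ) - 1) / (M : ℝ) ^ s ≤ 1 := by
            rw [div_le_one (by positivity)]; exact hMs
          exact mul_le_of_le_one_left (by positivity) e3
        · -- an empty part
          obtain ⟨x, hx, y, hy, hxy⟩ := hG.osc a (a + ρ) ha (by linarith) haρ
          rw [add_sub_cancel_left] at hxy
          -- one of the points is far from the level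
          obtain ⟨z, hz, hzy⟩ : ∃ z ∈ Icc a (a + ρ), c * Real.sqrt ρ / 2 ≤ |G z - y0| := by
            by_contra hcon
            push Not at hcon
            have e1 := hcon x hx
            have e2 := hcon y hy
            have e3 : |G x - G y| ≤ |G x - y0| + |y0 - G y| := abs_sub_le _ _ _
            rw [abs_sub_comm y0] at e3
            linarith
          -- the part containing `z`
          have hex : ∃ i < M, a + i * (ρ / M) ≤ z ∧ z ≤ a + i * (ρ / M) + ρ / M := by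
            rcases lt_or_ge ⌊(z - a) / (ρ / M)⌋₊ M with h | h
            · refine ⟨_, h, ?_⟩
              have e1 := Nat.floor_le (show 0 ≤ (z - a) / (ρ / M) from
                div_nonneg (sub_nonneg.2 hz.1) hd.le)
              have e2 := Nat.lt_floor_add_one ((z - a) / (ρ / M))
              rw [le_div_iff₀ hd] at e1
              rw [div_lt_iff₀ hd] at e2
              constructor <;> linarith
            · refine ⟨M - 1, by omega, ?_⟩
              have e1 := (Nat.le_floor_iff (div_nonneg (sub_nonneg.2 hz.1) hd.le)).1 h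
              rw [le_div_iff₀ hd, hMd] at e1
              have e3 : ((M - 1 : ℕ) : ℝ) = M - 1 := by
                rw [Nat.cast_sub (by omega)]; simp
              have e4 : ((M : ℝ) - 1) * (ρ / M) = ρ - ρ / M := by rw [sub_mul, hMd]; ring
              rw [e3, e4]
              constructor <;> linarith [hz.2]
          obtain ⟨i, hi, hzi⟩ := hex
          refine ⟨i, hi, ?_⟩
          rw [Finset.eq_empty_iff_forall_notMem]
          intro p hp
          obtain ⟨hpT, hp1, hp2⟩ := mem_part.1 hp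
          have e1 := hG.holder (p 0) (hT0 p hpT).1 z ⟨by linarith [hz.1], by linarith [hz.2]⟩
          have e2 : Real.sqrt |p 0 - z| ≤ Real.sqrt (ρ / M) := by
            apply Real.sqrt_le_sqrt
            rw [abs_le]; constructor <;> linarith [hzi.1, hzi.2]
          have e3 : K * Real.sqrt (ρ / M) ≤ c / 4 * Real.sqrt ρ := by
            rw [Real.sqrt_div hρ0.le]
            have e4 : 4 * K / c ≤ Real.sqrt M := Real.le_sqrt_of_sq_le hMK
            have e5 : 0 < Real.sqrt M := Real.sqrt_pos.2 hM0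
            rw [← mul_div_assoc, div_le_iff₀ e5]
            rw [div_le_iff₀ hc] at e4
            have e6 : 0 ≤ Real.sqrt ρ := Real.sqrt_nonneg _
            nlinarith
          have e4 := (hT0 p hpT).2.2
          rw [(hT0 p hpT).2.1] at e4
          have e5 : |G z - y0| ≤ |G z - G (p 0)| + |G (p 0) - y0| := abs_sub_le _ _ _
          rw [abs_sub_comm (G z) (G (p 0))] at e5
          have e6 : |G (p 0) - G z| ≤ c / 4 * Real.sqrt ρ :=
            e1.trans ((mul_le_mul_of_nonneg_left e2 hK.le).trans e3)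
          linarith

include hG hM2 hMK hs hs1 hMs hr hrR hrR2 hT0 hsep in
lemma total2 {x0 : ℝ} (hR1 : R ≤ 1) (hTx : ∀ p ∈ T, |p 0 - x0| ≤ R) :
    (T.card : ℝ) ≤ 2 * C2 K c M * (R ^ s * (R ^ 2) ^ (1 - s) * (r * Real.sqrt r)⁻¹) := by
  have hR : 0 < R := hr.trans hrR
  have hc := hG.c_pos
  have hK : 0 < K := lt_of_lt_of_le one_pos hG.K_ge
  have hM0 : (0 : ℝ) < M := by exact_mod_cast (by omega : 0 < M)
  have hM1 : (1 : ℝ) < M := by exact_mod_cast (by omega : 1 < M)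
  have hw0 : 0 < Real.sqrt r := Real.sqrt_pos.2 hr
  have hC2 : 0 ≤ C2 K c M := by unfold C2; positivity
  -- a covering interval
  obtain ⟨a, ρ, ha, haρ, hρ0, hρ2, hall, hρ⟩ : ∃ a ρ : ℝ, 0 ≤ a ∧ a + ρ ≤ 1 ∧ 0 < ρ ∧ ρ ≤ 2 * R ∧
      (∀ p ∈ T, a ≤ p 0 ∧ p 0 ≤ a + ρ) ∧ r ≤ ρ := by
    rcases le_total 1 (2 * R) with h | h
    · refine ⟨0, 1, le_rfl, by norm_num, one_pos, h, fun p hp => ?_, hrR.le.trans hR1⟩
      have := (hT0 p hp).1
      exact ⟨this.1, by linarith [this.2]⟩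
    · refine ⟨max 0 (min (x0 - R) (1 - 2 * R)), 2 * R, le_max_left _ _, ?_, by positivity, le_rfl,
        fun p hp => ?_, by linarith⟩
      · have : max 0 (min (x0 - R) (1 - 2 * R)) ≤ 1 - 2 * R :=
          max_le (by linarith) (min_le_right _ _)
        linarith
      · have h1 := abs_le.1 (hTx p hp)
        have h2 := (hT0 p hp).1
        constructor
        · exact max_le h2.1 ((min_le_left _ _).trans (by linarith [h1.1]))
        · rcases le_total (x0 - R) (1 - 2 * R) with h3 | h3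
          · rw [min_eq_left h3]
            have := le_max_right 0 (x0 - R)
            linarith [h1.2]
          · rw [min_eq_right h3]
            have := le_max_right 0 (1 - 2 * R)
            linarith [h2.2]
  have hpart : part T a ρ = T := by
    ext p
    rw [mem_part]
    exact ⟨fun h => h.1, fun h => ⟨h, hall p h⟩⟩
  obtain ⟨N, hN⟩ := pow_unbounded_of_one_lt (ρ / r) hM1
  rw [div_lt_iff₀ hr] at hN
  have h1 := scales2 hG hM2 hMK hs hs1 hMs hr hrR hrR2 hT0 hsep N ρ hρ (by linarith) hN a ha haρ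
  rw [hpart] at h1
  refine h1.trans ?_
  have h2 : ρ ^ s ≤ 2 * R ^ s := by
    calc ρ ^ s ≤ (2 * R) ^ s := Real.rpow_le_rpow hρ0.le hρ2 (by linarith)
      _ = 2 ^ s * R ^ s := Real.mul_rpow (by norm_num) hR.le
      _ ≤ 2 * R ^ s := by
          have : (2 : ℝ) ^ s ≤ 2 ^ (1 : ℝ) :=
            Real.rpow_le_rpow_of_exponent_le (by norm_num) hs1.le
          rw [Real.rpow_one] at this
          gcongr
  calc C2 K c M * (ρ ^ s * (R ^ 2) ^ (1 - s) * (r * Real.sqrt r)⁻¹)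
      ≤ C2 K c M * ((2 * R ^ s) * (R ^ 2) ^ (1 - s) * (r * Real.sqrt r)⁻¹) := by gcongr
    _ = _ := by ring

end main

lemma final_pow {r θ s : ℝ} (hr : 0 < r) (hθ1 : θ < 1) :
    (r ^ θ) ^ s * ((r ^ θ) ^ 2) ^ (1 - s) * (r * Real.sqrt r)⁻¹ =
      (r ^ (θ - 1)) ^ ((3 / 2 - θ * (2 - s)) / (1 - θ)) := by
  have h1 : (r ^ θ) ^ s = r ^ (θ * s) := (Real.rpow_mul hr.le _ _).symm
  have h2 : ((r ^ θ) ^ 2) ^ (1 - s) = r ^ (θ * 2 * (1 - s)) := by
    rw [← Real.rpow_natCast (r ^ θ) 2, ← Real.rpow_mul hr.le, ← Real.rpow_mul hr.le]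
    norm_num
  have h3 : (r * Real.sqrt r)⁻¹ = r ^ (-(3 / 2) : ℝ) := by
    rw [Real.rpow_neg hr.le, Real.sqrt_eq_rpow]
    congr 1
    nth_rewrite 1 [← Real.rpow_one r]
    rw [← Real.rpow_add hr]
    norm_num
  rw [h1, h2, h3, ← Real.rpow_add hr, ← Real.rpow_add hr, ← Real.rpow_mul hr.le]
  congr 1
  have : 1 - θ ≠ 0 := by linarith
  field_simp
  ring

/-- On a ball of `C^{1/2}` the Assouad spectrum is below the generic value of the little space. -/
lemma dimSpec_lt (g : CSpace Real.sqrt) (hg : dist g f0 < 1 / 96) {θ : ℝ} (hθ0 : 0 < θ)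
    (hθ : θ ≤ 1 / 2) :
    dimSpec θ (graph g.toFun) < ENNReal.ofReal (2 - (1 / 2 - θ) / (1 - θ)) := by
  have hR := rough_of_near g hg
  obtain ⟨M, s, hM2, hMK, hs, hs1, hMs⟩ := params 3 (1 / 96)
  have hM0 : (0 : ℝ) < M := by exact_mod_cast (by omega : 0 < M)
  have hC : 0 < 2 * C2 3 (1 / 96) M := by unfold C2; positivity
  have hθ1 : 0 < 1 - θ := by linarith
  have hβ0 : 0 ≤ (3 / 2 - θ * (2 - s)) / (1 - θ) := by
    apply div_nonneg _ hθ1.le
    nlinarith
  have hβ : ((Real.toNNReal ((3 / 2 - θ * (2 - s)) / (1 - θ)) : ℝ≥0) : ℝ) =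
    (3 / 2 - θ * (2 - s)) / (1 - θ) := Real.coe_toNNReal _ hβ0
  have h := dimSpec_le (θ := θ) (F := graph g.toFun)
    (β := Real.toNNReal ((3 / 2 - θ * (2 - s)) / (1 - θ))) hC ?_
  · refine lt_of_le_of_lt h ?_
    have h1 : (3 / 2 - θ * (2 - s)) / (1 - θ) < 2 - (1 / 2 - θ) / (1 - θ) := by
      rw [eq_sub_iff_add_eq.2 (show (2 - (1 / 2 - θ) / (1 - θ)) + (1 / 2 - θ) / (1 - θ) = 2 by ring),
        lt_sub_iff_add_lt, ← add_div, div_lt_iff₀ hθ1]
      nlinarith
    have h2 : ((Real.toNNReal ((3 / 2 - θ * (2 - s)) / (1 - θ)) : ℝ≥0) : ℝ≥0∞) =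
      ENNReal.ofReal ((3 / 2 - θ * (2 - s)) / (1 - θ)) := rfl
    rw [h2]
    exact (ENNReal.ofReal_lt_ofReal_iff (lt_of_le_of_lt hβ0 h1)).2 h1
  · rintro r hr hr1 _ ⟨x, rfl⟩ T hT hsep
    rw [hβ, ← final_pow hr (by linarith)]
    have hrR : r < r ^ θ := by
      nth_rewrite 1 [← Real.rpow_one r]
      exact Real.rpow_lt_rpow_of_exponent_gt hr hr1 (by linarith)
    have hR1 : r ^ θ ≤ 1 := Real.rpow_le_one hr.le hr1.le hθ0.le
    have hrR2 : r ≤ (r ^ θ) ^ 2 := by
      rw [← Real.rpow_natCast (r ^ θ) 2, ← Real.rpow_mul hr.le]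
      nth_rewrite 1 [← Real.rpow_one r]
      apply Real.rpow_le_rpow_of_exponent_ge hr hr1.le
      push_cast
      linarith
    have hp : ∀ p ∈ T, ∃ t : I01, p = !₂[(t : ℝ), g.toFun t] ∧
        dist p !₂[(x : ℝ), g.toFun x] < r ^ θ := by
      intro p hp
      obtain ⟨h1, ⟨t, rfl⟩⟩ := hT hp
      exact ⟨t, rfl, h1⟩
    refine total2 hR hM2 hMK hs hs1 hMs hr hrR hrR2 (y0 := g.toFun x) ?_ hsep (x0 := (x : ℝ)) hR1 ?_
    · intro p hpT
      obtain ⟨t, rfl, hd⟩ := hp p hpT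
      have h2 := plane_coord_le !₂[(t : ℝ), g.toFun t] !₂[(x : ℝ), g.toFun x] 1
      refine ⟨by simpa using t.2, ?_, ?_⟩
      · simp
      · refine le_trans ?_ hd.le
        simpa using h2
    · intro p hpT
      obtain ⟨t, rfl, hd⟩ := hp p hpT
      have h2 := plane_coord_le !₂[(t : ℝ), g.toFun t] !₂[(x : ℝ), g.toFun x] 0
      refine le_trans ?_ hd.le
      simpa using h2

lemma sqrt_eta : Tendsto (fun t : ℝ => Real.log (Real.sqrt t) / Real.log t) (𝓝[>] 0)
    (𝓝 (1 / 2)) := by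
  refine tendsto_const_nhds.congr' ?_
  have h1 : Ioo (0:ℝ) 1 ∈ 𝓝[>] (0:ℝ) := Ioo_mem_nhdsGT one_pos
  filter_upwards [h1] with t ht
  rw [Real.log_sqrt ht.1.le]
  have : Real.log t ≠ 0 := (Real.log_neg ht.1 ht.2).ne
  field_simp

end Pool.Agent.R733.AS
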