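import Pool.Agent.W337.WL.Fix

set_option autoImplicit false

open MeasureTheory Set
open scoped ENNReal NNReal

namespace Pool.Agent.R733.Wei

open Pool.Agent.W172.WL Pool.Agent.W337.WL

/-- A nonempty open subset of a normed group is not shy. -/
theorem not_isShy_of_ball {X : Type*} [NormedAddCommGroup X] {A : Set X} {g : X} {ε : ℝ}
    (hε : 0 < ε) (h : Metric.ball g ε ⊆ A) : ¬ IsShy A := by
  rintro ⟨μ, B, hAB, hB, ⟨K, hK, hK0, hK1⟩, hx⟩
  have hcover : K ⊆ ⋃ x : X, Metric.ball x ε := fun y _ =>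
    mem_iUnion.mpr ⟨y, Metric.mem_ball_self hε⟩
  obtain ⟨t, ht⟩ := hK.elim_finite_subcover _ (fun x => Metric.isOpen_ball) hcover
  have h0 : ∀ x : X, μ (Metric.ball x ε) = 0 := by
    intro x
    apply le_antisymm _ (zero_le)
    rw [← hx (x - g)]
    apply measure_mono
    intro y hy
    refine ⟨y - (x - g), hAB (h ?_), add_sub_cancel _ _⟩
    rw [Metric.mem_ball, dist_eq_norm] at hy ⊢
    have : y - (x - g) - g = y - x := by abel
    rw [this]
    exact hy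
  have h1 : μ K ≤ 0 := by
    calc μ K ≤ μ (⋃ x ∈ t, Metric.ball x ε) := measure_mono ht
      _ ≤ ∑ x ∈ t, μ (Metric.ball x ε) := measure_biUnion_finset_le _ _
      _ = 0 := Finset.sum_eq_zero fun x _ => h0 x
  exact absurd hK0 (not_lt.mpr h1)

/-- `s = b^(-α)` -/
noncomputable def sc (b : ℕ) (α : ℝ) : ℝ := (b : ℝ) ^ (-α)

theorem sc_pos {b : ℕ} {α : ℝ} (hb : 2 ≤ b) : 0 < sc b α :=
  Real.rpow_pos_of_pos (by exact_mod_cast (by omega : 0 < b)) _

theorem sc_lt {b : ℕ} {α : ℝ} (hb : 2 ≤ b) (hα : 0 < α) : sc b α < 1 := by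
  have hb1 : (1:ℝ) < b := by exact_mod_cast (by omega : 1 < b)
  exact Real.rpow_lt_one_of_one_lt_of_neg hb1 (by linarith)

theorem sc_pow {b : ℕ} {α : ℝ} (k : ℕ) : (b : ℝ) ^ (-(α * k)) = sc b α ^ k := by
  unfold sc
  rw [← Real.rpow_natCast, ← Real.rpow_mul (Nat.cast_nonneg b)]
  ring_nf

theorem W_eq {b : ℕ} {α : ℝ} (g : ℝ → ℝ) (x : ℝ) :
    W b α g x = ∑' k : ℕ, sc b α ^ k * g ((b : ℝ) ^ k * x) := by
  unfold W
  exact tsum_congr fun k => by rw [sc_pow]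

theorem summ {b : ℕ} {α : ℝ} (hb : 2 ≤ b) (hα : 0 < α) {g : ℝ → ℝ} {M : ℝ}
    (hM : ∀ x, |g x| ≤ M) (x : ℝ) :
    Summable (fun k : ℕ => sc b α ^ k * g ((b : ℝ) ^ k * x)) := by
  have hs := sc_pos (α := α) hb
  have hs1 := sc_lt hb hα
  apply Summable.of_norm_bounded (g := fun k => sc b α ^ k * M)
    ((summable_geometric_of_lt_one hs.le hs1).mul_right M)
  intro k
  rw [Real.norm_eq_abs, abs_mul, abs_of_nonneg (pow_nonneg hs.le k)]
  exact mul_le_mul_of_nonneg_left (hM _) (pow_nonneg hs.le k)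

theorem W_bound {b : ℕ} {α : ℝ} (hb : 2 ≤ b) (hα : 0 < α) {g : ℝ → ℝ} {M : ℝ}
    (hM : ∀ x, |g x| ≤ M) (x : ℝ) : |W b α g x| ≤ M / (1 - sc b α) := by
  have hs := sc_pos (α := α) hb
  have hs1 := sc_lt hb hα
  rw [W_eq]
  have h1 := summ (α := α) hb hα hM x
  calc |∑' k : ℕ, sc b α ^ k * g ((b : ℝ) ^ k * x)|
      ≤ ∑' k : ℕ, |sc b α ^ k * g ((b : ℝ) ^ k * x)| := by
        rw [← Real.norm_eq_abs]
        exact norm_tsum_le_tsum_norm h1.norm
    _ ≤ ∑' k : ℕ, sc b α ^ k * M := by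
        apply Summable.tsum_le_tsum _ h1.abs
          ((summable_geometric_of_lt_one hs.le hs1).mul_right M)
        intro k
        rw [abs_mul, abs_of_nonneg (pow_nonneg hs.le k)]
        exact mul_le_mul_of_nonneg_left (hM _) (pow_nonneg hs.le k)
    _ = M / (1 - sc b α) := by
        rw [tsum_mul_right, tsum_geometric_of_lt_one hs.le hs1]
        field_simp

theorem W_fun {b : ℕ} {α : ℝ} (hb : 2 ≤ b) (hα : 0 < α) {g : ℝ → ℝ} {M : ℝ}
    (hM : ∀ x, |g x| ≤ M) (x : ℝ) : W b α g x = g x + sc b α * W b α g (b * x) := by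
  rw [W_eq, W_eq, (summ hb hα hM x).tsum_eq_zero_add]
  simp only [pow_zero, one_mul]
  rw [← tsum_mul_left]
  congr 1
  apply tsum_congr
  intro k
  rw [pow_succ, pow_succ]
  have : (b : ℝ) ^ k * b * x = (b : ℝ) ^ k * (b * x) := by ring
  rw [this]
  ring

theorem W_per {b : ℕ} {α : ℝ} {g : ℝ → ℝ} (hg : Function.Periodic g 1) (x : ℝ) :
    W b α g (x + 1) = W b α g x := by
  rw [W_eq, W_eq]
  refine tsum_congr fun k => ?_
  have h1 := hg.nat_mul (b ^ k) ((b : ℝ) ^ k * x)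
  rw [mul_one, Nat.cast_pow] at h1
  rw [mul_add, mul_one, h1]

/-- Increments of `W` at `0`. -/
theorem W_sub_zero {b : ℕ} {α : ℝ} (hb : 2 ≤ b) (hα : 0 < α) {g : ℝ → ℝ} {M : ℝ}
    (hM : ∀ x, |g x| ≤ M) (x : ℝ) :
    W b α g x - W b α g 0 = ∑' k : ℕ, sc b α ^ k * (g ((b : ℝ) ^ k * x) - g 0) := by
  have h0 := summ (α := α) hb hα hM 0
  have hx := summ (α := α) hb hα hM x
  rw [W_eq, W_eq, ← hx.tsum_sub h0]
  apply tsum_congr
  intro k
  rw [mul_zero]
  ring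

/-- Distance to the nearest integer. -/
noncomputable def nd (x : ℝ) : ℝ := ‖(x : UnitAddCircle)‖

theorem nd_nonneg (x : ℝ) : 0 ≤ nd x := norm_nonneg _

theorem nd_eq {x : ℝ} (h : |x| ≤ 1 / 2) : nd x = |x| := by
  unfold nd
  rw [AddCircle.norm_coe_eq_abs_iff (p := (1:ℝ)) (by norm_num)]
  simpa using h

theorem nd_per (x : ℝ) : nd (x + 1) = nd x := by
  unfold nd
  rw [AddCircle.coe_add, AddCircle.coe_period, add_zero]

theorem nd_neg (x : ℝ) : nd (-x) = nd x := by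
  unfold nd
  rw [AddCircle.coe_neg, norm_neg]

theorem nd_le_abs (x : ℝ) : nd x ≤ |x| := by
  unfold nd
  rw [UnitAddCircle.norm_eq]
  exact round_le x 0 |>.trans (by simp) 

theorem nd_lip (x y : ℝ) : |nd x - nd y| ≤ |x - y| := by
  have h1 : |nd x - nd y| ≤ nd (x - y) := by
    unfold nd
    rw [AddCircle.coe_sub]
    exact abs_norm_sub_norm_le _ _
  exact h1.trans (nd_le_abs _)

/-- Odd function made of two small tents. -/
noncomputable def g0 (δ x : ℝ) : ℝ := max 0 (δ - nd (x - δ)) - max 0 (δ - nd (x + δ))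

theorem tent_lip (δ x y : ℝ) :
    |max 0 (δ - nd x) - max 0 (δ - nd y)| ≤ |x - y| := by
  calc |max 0 (δ - nd x) - max 0 (δ - nd y)| ≤ |(δ - nd x) - (δ - nd y)| := by
        rw [max_comm 0, max_comm 0]
        exact abs_max_sub_max_le_abs _ _ _
    _ = |nd x - nd y| := by rw [← abs_neg]; congr 1; ring
    _ ≤ |x - y| := nd_lip x y

theorem g0_per (δ : ℝ) : Function.Periodic (g0 δ) 1 := by
  intro x
  unfold g0
  have e1 : x + 1 - δ = (x - δ) + 1 := by ring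
  have e2 : x + 1 + δ = (x + δ) + 1 := by ring
  rw [e1, e2, nd_per, nd_per]

theorem g0_lip (δ x y : ℝ) : |g0 δ x - g0 δ y| ≤ 2 * |x - y| := by
  unfold g0
  have h1 := tent_lip δ (x - δ) (y - δ)
  have h2 := tent_lip δ (x + δ) (y + δ)
  have e1 : x - δ - (y - δ) = x - y := by ring
  have e2 : x + δ - (y + δ) = x - y := by ring
  rw [e1] at h1
  rw [e2] at h2
  rw [abs_le] at h1 h2 ⊢
  constructor <;> linarith [h1.1, h1.2, h2.1, h2.2]

theorem tent_bd {δ : ℝ} (hδ : 0 ≤ δ) (x : ℝ) :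
    0 ≤ max 0 (δ - nd x) ∧ max 0 (δ - nd x) ≤ δ :=
  ⟨le_max_left _ _, max_le hδ (by linarith [nd_nonneg x])⟩

theorem g0_bd {δ : ℝ} (hδ : 0 ≤ δ) (x : ℝ) : |g0 δ x| ≤ δ := by
  unfold g0
  have h1 := tent_bd hδ (x - δ)
  have h2 := tent_bd hδ (x + δ)
  rw [abs_le]
  constructor <;> linarith [h1.1, h1.2, h2.1, h2.2]

theorem g0_odd (δ x : ℝ) : g0 δ (-x) = -g0 δ x := by
  unfold g0
  have e1 : -x - δ = -(x + δ) := by ring
  have e2 : -x + δ = -(x - δ) := by ring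
  rw [e1, e2, nd_neg, nd_neg]
  ring

theorem g0_zero (δ : ℝ) : g0 δ 0 = 0 := by
  have := g0_odd δ 0
  rw [neg_zero] at this
  linarith

theorem right_tent {δ x : ℝ} (hδ : 0 < δ) (hδ4 : δ ≤ 1 / 4) (hx0 : 0 ≤ x) (hx : x ≤ 1 / 2) :
    max 0 (δ - nd (x + δ)) = 0 := by
  apply max_eq_left
  rcases le_or_gt (x + δ) (1 / 2) with h | h
  · rw [nd_eq (by rw [abs_of_nonneg (by linarith)]; exact h), abs_of_nonneg (by linarith)]
    linarith
  · have e : nd (x + δ) = nd (x + δ - 1) := by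
      have := nd_per (x + δ - 1)
      rw [sub_add_cancel] at this
      exact this
    rw [e, nd_eq (by rw [abs_of_nonpos (by linarith)]; linarith), abs_of_nonpos (by linarith)]
    linarith

theorem g0_nonneg {δ x : ℝ} (hδ : 0 < δ) (hδ4 : δ ≤ 1 / 4) (hx0 : 0 ≤ x) (hx : x ≤ 1 / 2) :
    0 ≤ g0 δ x := by
  unfold g0
  rw [right_tent hδ hδ4 hx0 hx, sub_zero]
  exact le_max_left _ _

theorem g0_small {δ x : ℝ} (hδ : 0 < δ) (hδ4 : δ ≤ 1 / 4) (hx0 : 0 ≤ x) (hx : x ≤ δ) :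
    g0 δ x = x := by
  unfold g0
  rw [right_tent hδ hδ4 hx0 (by linarith), sub_zero,
    nd_eq (by rw [abs_of_nonpos (by linarith)]; linarith), abs_of_nonpos (by linarith),
    max_eq_right (by linarith)]
  ring

theorem W_add {b : ℕ} {α : ℝ} (hb : 2 ≤ b) (hα : 0 < α) {g h : ℝ → ℝ} {M N : ℝ}
    (hM : ∀ x, |g x| ≤ M) (hN : ∀ x, |h x| ≤ N) (x : ℝ) :
    W b α (fun x => g x + h x) x = W b α g x + W b α h x := by
  rw [W_eq, W_eq, W_eq, ← (summ hb hα hM x).tsum_add (summ hb hα hN x)]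
  exact tsum_congr fun k => by ring

/-- Lower bound for the Weierstrass function of `g0` at scale one. -/
theorem g0_scale {b : ℕ} {α : ℝ} (hb : 2 ≤ b) (hα : 0 < α) {j : ℕ}
    (hj : sc b α ^ (j + 1) ≤ (1 - sc b α) / (2 * b)) {δ : ℝ} (hδ0 : 0 < δ) (hδ4 : δ ≤ 1 / 4)
    (hδ : (b : ℝ) ^ j * δ ≤ 1 / 2) {v : ℝ} (hv1 : δ / b ≤ v) (hv2 : v ≤ δ) :
    δ / (2 * b) ≤ W b α (g0 δ) v := by
  have hs := sc_pos (α := α) hb
  have hs1 := sc_lt hb hα
  have hb0 : (0:ℝ) < b := by exact_mod_cast (by omega : 0 < b)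
  have hb1 : (1:ℝ) ≤ b := by exact_mod_cast (by omega : 1 ≤ b)
  have hv0 : 0 ≤ v := le_trans (by positivity) hv1
  have hsum := summ (α := α) hb hα (g0_bd hδ0.le) v
  rw [W_eq, ← hsum.sum_add_tsum_nat_add (j + 1)]
  have h1 : δ / b ≤ ∑ i ∈ Finset.range (j + 1), sc b α ^ i * g0 δ ((b : ℝ) ^ i * v) := by
    have h2 : sc b α ^ 0 * g0 δ ((b : ℝ) ^ 0 * v) ≤
        ∑ i ∈ Finset.range (j + 1), sc b α ^ i * g0 δ ((b : ℝ) ^ i * v) := by
      apply Finset.single_le_sum (f := fun i => sc b α ^ i * g0 δ ((b : ℝ) ^ i * v)) _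
        (Finset.mem_range.mpr (by omega))
      intro i hi
      have hi' : i ≤ j := by
        have := Finset.mem_range.mp hi
        omega
      apply mul_nonneg (pow_nonneg hs.le i)
      apply g0_nonneg hδ0 hδ4 (by positivity)
      calc (b : ℝ) ^ i * v ≤ (b : ℝ) ^ j * δ :=
            mul_le_mul (pow_le_pow_right₀ hb1 hi') hv2 hv0 (by positivity)
        _ ≤ 1 / 2 := hδ
    rw [pow_zero, pow_zero, one_mul, one_mul, g0_small hδ0 hδ4 hv0 hv2] at h2
    linarith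
  have h3 : -(δ * (sc b α ^ (j + 1) / (1 - sc b α))) ≤
      ∑' i : ℕ, sc b α ^ (i + (j + 1)) * g0 δ ((b : ℝ) ^ (i + (j + 1)) * v) := by
    have e : -(δ * (sc b α ^ (j + 1) / (1 - sc b α))) =
        ∑' i : ℕ, -(sc b α ^ i * (sc b α ^ (j + 1) * δ)) := by
      rw [tsum_neg, tsum_mul_right, tsum_geometric_of_lt_one hs.le hs1]
      field_simp
    rw [e]
    have hq : ∀ i : ℕ, sc b α ^ (i + (j + 1)) = sc b α ^ i * sc b α ^ (j + 1) := fun i =>
      pow_add _ _ _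
    refine Summable.tsum_le_tsum (f := fun i : ℕ => -(sc b α ^ i * (sc b α ^ (j + 1) * δ)))
      (g := fun i : ℕ => sc b α ^ (i + (j + 1)) * g0 δ ((b : ℝ) ^ (i + (j + 1)) * v)) ?_ ?_ ?_
    · intro i
      have h7 := (abs_le.mp (g0_bd hδ0.le ((b : ℝ) ^ (i + (j + 1)) * v))).1
      have hp : 0 ≤ sc b α ^ (i + (j + 1)) := pow_nonneg hs.le _
      have h8 := mul_le_mul_of_nonneg_left h7 hp
      have h9 : -(sc b α ^ i * (sc b α ^ (j + 1) * δ)) = sc b α ^ (i + (j + 1)) * -δ := by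
        rw [hq]; ring
      rw [h9]
      exact h8
    · exact ((summable_geometric_of_lt_one hs.le hs1).mul_right (sc b α ^ (j + 1) * δ)).neg
    · exact (summable_nat_add_iff (f := fun k => sc b α ^ k * g0 δ ((b:ℝ)^k * v)) (j + 1)).mpr hsum
  have h4 : δ * (sc b α ^ (j + 1) / (1 - sc b α)) ≤ δ / (2 * b) := by
    have h5 : sc b α ^ (j + 1) / (1 - sc b α) ≤ 1 / (2 * b) := by
      rw [div_le_iff₀ (by linarith)]
      calc _ ≤ _ := hj
        _ = _ := by ring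
    calc δ * (sc b α ^ (j + 1) / (1 - sc b α)) ≤ δ * (1 / (2 * b)) :=
          mul_le_mul_of_nonneg_left h5 hδ0.le
      _ = _ := by ring
  have h6 : δ / b = δ / (2 * b) + δ / (2 * b) := by field_simp; ring
  linarith

/-- The one-sided inequality at `0`, stable under small perturbations in the Lipschitz norm. -/
theorem pos_side {b : ℕ} {α : ℝ} (hb : 2 ≤ b) (hα : 0 < α) {j : ℕ}
    (hj : sc b α ^ (j + 1) ≤ (1 - sc b α) / (2 * b)) {δ : ℝ} (hδ0 : 0 < δ) (hδ4 : δ ≤ 1 / 4)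
    (hδ : (b : ℝ) ^ j * δ ≤ 1 / 2) {h : ℝ → ℝ} {ε : ℝ} (hε1 : ε ≤ 1)
    (hε2 : 2 * ε / (1 - sc b α) ≤ δ / (2 * b)) (h1 : ∀ x, |h x| ≤ ε)
    (h2 : ∀ x y, |h x - h y| ≤ ε * |x - y|) :
    ∀ u, 0 ≤ u → u ≤ δ → W b α (fun x => g0 δ x + h x) 0 ≤ W b α (fun x => g0 δ x + h x) u := by
  have hs := sc_pos (α := α) hb
  have hs1 := sc_lt hb hα
  have hb0 : (0:ℝ) < b := by exact_mod_cast (by omega : 0 < b)
  have hb1 : (1:ℝ) < b := by exact_mod_cast (by omega : 1 < b)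
  set g : ℝ → ℝ := fun x => g0 δ x + h x with hg
  have hgb : ∀ x, |g x| ≤ δ + ε := fun x =>
    (abs_add_le _ _).trans (add_le_add (g0_bd hδ0.le x) (h1 x))
  -- scale one
  have A : ∀ v, δ / b ≤ v → v ≤ δ → W b α g 0 ≤ W b α g v := by
    intro v hv1 hv2
    rw [hg, W_add hb hα (g0_bd hδ0.le) h1, W_add hb hα (g0_bd hδ0.le) h1]
    have e1 := g0_scale hb hα hj hδ0 hδ4 hδ hv1 hv2
    have e2 : W b α (g0 δ) 0 = 0 := by
      rw [W_eq]
      simp [g0_zero]
    have e3 := abs_le.mp (W_bound hb hα h1 v)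
    have e4 := abs_le.mp (W_bound hb hα h1 0)
    have e5 : 2 * ε / (1 - sc b α) = ε / (1 - sc b α) + ε / (1 - sc b α) := by ring
    rw [e2]
    linarith [e3.1, e4.2]
  -- small increments
  have B : ∀ u, 0 ≤ u → u ≤ δ → g 0 ≤ g u := by
    intro u hu0 hu
    have e1 := abs_le.mp (h2 u 0)
    rw [sub_zero, abs_of_nonneg hu0] at e1
    show g0 δ 0 + h 0 ≤ g0 δ u + h u
    rw [g0_zero, g0_small hδ0 hδ4 hu0 hu]
    nlinarith [e1.1]
  have C : ∀ n : ℕ, ∀ u, δ / (b : ℝ) ^ (n + 1) ≤ u → u ≤ δ → W b α g 0 ≤ W b α g u := by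
    intro n
    induction n with
    | zero =>
      intro u hu1 hu2
      apply A u _ hu2
      simpa using hu1
    | succ n ih =>
      intro u hu1 hu2
      rcases le_or_gt (δ / b) u with hc | hc
      · exact A u hc hu2
      · have hu0 : 0 ≤ u := le_trans (by positivity) hu1
        have e1 : (b : ℝ) * u ≤ δ := by
          rw [lt_div_iff₀ hb0] at hc
          linarith
        have e2 : δ / (b : ℝ) ^ (n + 1) ≤ b * u := by
          rw [div_le_iff₀ (by positivity)] at hu1 ⊢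
          calc δ ≤ u * (b : ℝ) ^ (n + 1 + 1) := hu1
            _ = _ := by ring
        have e3 := ih (b * u) e2 e1
        have e4 := B u hu0 hu2
        rw [W_fun hb hα hgb u, W_fun hb hα hgb 0, mul_zero]
        have := mul_le_mul_of_nonneg_left e3 hs.le
        linarith
  intro u hu0 hu
  rcases hu0.eq_or_lt with h0 | h0
  · rw [← h0]
  · obtain ⟨n, hn⟩ := exists_pow_lt_of_lt_one (div_pos h0 hδ0) (inv_lt_one_of_one_lt₀ hb1)
    apply C n u _ hu
    rw [lt_div_iff₀ hδ0] at hn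
    have e1 : δ / (b : ℝ) ^ (n + 1) ≤ (b : ℝ)⁻¹ ^ n * δ := by
      rw [inv_pow, div_le_iff₀ (by positivity)]
      have : ((b : ℝ) ^ n)⁻¹ * δ * (b : ℝ) ^ (n + 1) = δ * b := by
        rw [pow_succ]; field_simp
      rw [this]
      nlinarith
    linarith

/-- Reflection. -/
theorem W_refl (b : ℕ) (α : ℝ) (g : ℝ → ℝ) (x : ℝ) :
    W b α (fun y => -g (-y)) x = -W b α g (-x) := by
  rw [W_eq, W_eq, ← tsum_neg]
  apply tsum_congr
  intro k
  rw [mul_neg, mul_neg]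

theorem neg_side {b : ℕ} {α : ℝ} (hb : 2 ≤ b) (hα : 0 < α) {j : ℕ}
    (hj : sc b α ^ (j + 1) ≤ (1 - sc b α) / (2 * b)) {δ : ℝ} (hδ0 : 0 < δ) (hδ4 : δ ≤ 1 / 4)
    (hδ : (b : ℝ) ^ j * δ ≤ 1 / 2) {h : ℝ → ℝ} {ε : ℝ} (hε1 : ε ≤ 1)
    (hε2 : 2 * ε / (1 - sc b α) ≤ δ / (2 * b)) (h1 : ∀ x, |h x| ≤ ε)
    (h2 : ∀ x y, |h x - h y| ≤ ε * |x - y|) :
    ∀ u, -δ ≤ u → u ≤ 0 → W b α (fun x => g0 δ x + h x) u ≤ W b α (fun x => g0 δ x + h x) 0 := by
  intro u hu1 hu2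
  have key := pos_side hb hα hj hδ0 hδ4 hδ (h := fun y => -h (-y)) hε1 hε2
    (fun x => by rw [abs_neg]; exact h1 _)
    (fun x y => by
      have := h2 (-y) (-x)
      have e : -y - -x = x - y := by ring
      rw [e] at this
      have e2 : -h (-x) - -h (-y) = h (-y) - h (-x) := by ring
      rw [e2]; exact this) (-u) (by linarith) (by linarith)
  have e : (fun x => g0 δ x + -h (-x)) = fun y => -(fun x => g0 δ x + h x) (-y) := by
    funext y
    simp only [g0_odd]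
    ring
  have r0 := W_refl b α (fun x => g0 δ x + h x) 0
  have r1 := W_refl b α (fun x => g0 δ x + h x) (-u)
  rw [← e] at r0 r1
  rw [neg_zero] at r0
  rw [neg_neg] at r1
  have key' : W b α (fun x => g0 δ x + -h (-x)) 0 ≤ W b α (fun x => g0 δ x + -h (-x)) (-u) := key
  rw [r0, r1] at key'
  linarith

/-- A point at which the graph, sheared by a large slope, is crossed exactly once. -/
theorem crossing {b : ℕ} {α : ℝ} (hb : 2 ≤ b) (hα : 0 < α) {δ : ℝ} (hδ0 : 0 < δ)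
    {g : ℝ → ℝ} {M K : ℝ} (hM : ∀ x, |g x| ≤ M) (hper : Function.Periodic g 1)
    (hK : ∀ x y, |g x - g y| ≤ K * |x - y|)
    (hp : ∀ u, 0 ≤ u → u ≤ δ → W b α g 0 ≤ W b α g u)
    (hn : ∀ u, -δ ≤ u → u ≤ 0 → W b α g u ≤ W b α g 0) :
    ∃ L : ℝ, 0 < L ∧ ∀ x : ℝ, ((1:ℝ) / b < x → W b α g (1 / b) + L * (1 / b) < W b α g x + L * x) ∧
      (x < 1 / b → W b α g x + L * x < W b α g (1 / b) + L * (1 / b)) := by
  have hs := sc_pos (α := α) hb
  have hs1 := sc_lt hb hα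
  have hb0 : (0:ℝ) < b := by exact_mod_cast (by omega : 0 < b)
  set N := M / (1 - sc b α) with hN
  have hW : ∀ x, |W b α g x| ≤ N := W_bound hb hα hM
  have hN0 : 0 ≤ N := (abs_nonneg _).trans (hW 0)
  set L := |K| + 1 + (2 * N + 1) * b / δ with hL
  have hL1 : |K| + 1 ≤ L := by
    have : 0 ≤ (2 * N + 1) * b / δ := by positivity
    linarith
  have hL2 : (2 * N + 1) ≤ L * (δ / b) := by
    have e1 : (2 * N + 1) * b / δ * (δ / b) = 2 * N + 1 := by field_simp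
    have e2 : 0 ≤ (|K| + 1) * (δ / b) := by positivity
    rw [hL, add_mul, e1]
    linarith
  have hKK : K ≤ |K| := le_abs_self K
  have hinc : ∀ x, W b α g x - W b α g (1 / b) =
      (g x - g (1 / b)) + sc b α * (W b α g (b * (x - 1 / b)) - W b α g 0) := by
    intro x
    rw [W_fun hb hα hM x, W_fun hb hα hM (1 / b)]
    have e1 : (b : ℝ) * (1 / b) = 0 + 1 := by field_simp; ring
    have e2 : (b : ℝ) * x = b * (x - 1 / b) + 1 := by
      field_simp
      ring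
    rw [e1, W_per hper, e2, W_per hper]
    ring
  refine ⟨L, by linarith [abs_nonneg K], fun x => ⟨fun hx => ?_, fun hx => ?_⟩⟩
  · rcases le_or_gt (x - 1 / b) (δ / b) with hc | hc
    · have e1 := hinc x
      have e2 := hp (b * (x - 1 / b)) (mul_nonneg hb0.le (by linarith)) (by
        rw [le_div_iff₀ hb0] at hc; linarith)
      have e3 := abs_le.mp (hK x (1 / b))
      rw [abs_of_pos (by linarith : 0 < x - 1 / b)] at e3
      have e4 : 0 ≤ sc b α * (W b α g (b * (x - 1 / b)) - W b α g 0) :=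
        mul_nonneg hs.le (by linarith)
      have e5 : K * (x - 1 / b) ≤ |K| * (x - 1 / b) :=
        mul_le_mul_of_nonneg_right hKK (by linarith)
      have e6 : (|K| + 1) * (x - 1 / b) ≤ L * (x - 1 / b) :=
        mul_le_mul_of_nonneg_right hL1 (by linarith)
      nlinarith [e3.1]
    · have e1 := abs_le.mp (hW x)
      have e2 := abs_le.mp (hW (1 / b))
      have e3 : L * (δ / b) ≤ L * (x - 1 / b) :=
        mul_le_mul_of_nonneg_left hc.le (by linarith [abs_nonneg K])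
      nlinarith [e1.1, e2.2]
  · rcases le_or_gt (1 / b - x) (δ / b) with hc | hc
    · have e1 := hinc x
      have e2 := hn (b * (x - 1 / b)) (by
        rw [le_div_iff₀ hb0] at hc; linarith) (mul_nonpos_of_nonneg_of_nonpos hb0.le (by linarith))
      have e3 := abs_le.mp (hK x (1 / b))
      rw [abs_of_neg (by linarith : x - 1 / b < 0)] at e3
      have e4 : sc b α * (W b α g (b * (x - 1 / b)) - W b α g 0) ≤ 0 :=
        mul_nonpos_of_nonneg_of_nonpos hs.le (by linarith)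
      have e5 : K * (1 / b - x) ≤ |K| * (1 / b - x) :=
        mul_le_mul_of_nonneg_right hKK (by linarith)
      have e6 : (|K| + 1) * (1 / b - x) ≤ L * (1 / b - x) :=
        mul_le_mul_of_nonneg_right hL1 (by linarith)
      nlinarith [e3.2]
    · have e1 := abs_le.mp (hW x)
      have e2 := abs_le.mp (hW (1 / b))
      have e3 : L * (δ / b) ≤ L * (1 / b - x) :=
        mul_le_mul_of_nonneg_left hc.le (by linarith [abs_nonneg K])
      nlinarith [e1.2, e2.1]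

/-- The graph of `W_g` over `[0,1]`. -/
def graphW (b : ℕ) (α : ℝ) (g : ℝ → ℝ) : Set (ℝ × ℝ) :=
  {p | p.1 ∈ Icc (0:ℝ) 1 ∧ p.2 = W b α g p.1}

/-- The projection `P_θ`. -/
noncomputable def proj (θ : ℝ) (p : ℝ × ℝ) : ℝ := p.1 * Real.cos θ + p.2 * Real.sin θ

theorem slice_single {b : ℕ} {α : ℝ} (hb : 2 ≤ b) (hα : 0 < α)
    {g : ℝ → ℝ} {M L : ℝ} (hM : ∀ x, |g x| ≤ M) (hL : 0 < L)
    (hc : ∀ x : ℝ, ((1:ℝ) / b < x → W b α g (1 / b) + L * (1 / b) < W b α g x + L * x) ∧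
      (x < 1 / b → W b α g x + L * x < W b α g (1 / b) + L * (1 / b))) :
    ∃ θ t : ℝ, Real.sin θ ≠ 0 ∧ sInf (proj θ '' graphW b α g) < t ∧
      t < sSup (proj θ '' graphW b α g) ∧
      ∃ p, graphW b α g ∩ proj θ ⁻¹' {t} = {p} := by
  have hb0 : (0:ℝ) < b := by exact_mod_cast (by omega : 0 < b)
  have hb1 : (1:ℝ) < b := by exact_mod_cast (by omega : 1 < b)
  have hc0 := Real.cos_arctan_pos (1 / L)
  have ht := Real.tan_arctan (1 / L)
  set θ := Real.arctan (1 / L) with hθ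
  have hcs : Real.cos θ = L * Real.sin θ := by
    rw [Real.tan_eq_sin_div_cos, div_eq_div_iff hc0.ne' hL.ne'] at ht
    linarith
  have hs0 : 0 < Real.sin θ := by
    rw [hcs] at hc0
    exact (mul_pos_iff_of_pos_left hL).mp hc0
  have hP : ∀ x, proj θ (x, W b α g x) = Real.sin θ * (W b α g x + L * x) := by
    intro x
    unfold proj
    simp only []
    rw [hcs]; ring
  have hbd : ∀ p ∈ proj θ '' graphW b α g,
      |p| ≤ Real.sin θ * (M / (1 - sc b α) + L) := by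
    rintro _ ⟨⟨x, y⟩, ⟨hx, hy⟩, rfl⟩
    simp only at hx hy
    subst hy
    rw [hP, abs_mul, abs_of_pos hs0]
    apply mul_le_mul_of_nonneg_left _ hs0.le
    refine (abs_add_le _ _).trans (add_le_add (W_bound hb hα hM x) ?_)
    rw [abs_of_nonneg (mul_nonneg hL.le hx.1)]
    nlinarith [hx.2]
  have hmem : ∀ x ∈ Icc (0:ℝ) 1, Real.sin θ * (W b α g x + L * x) ∈ proj θ '' graphW b α g := by
    intro x hx
    exact ⟨(x, W b α g x), ⟨hx, rfl⟩, hP x⟩
  have h1b0 : (0:ℝ) < 1 / b := by positivity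
  have h1b1 : (1:ℝ) / b < 1 := by
    rw [div_lt_one hb0]; exact hb1
  refine ⟨θ, Real.sin θ * (W b α g (1 / b) + L * (1 / b)), hs0.ne', ?_, ?_,
    ((1:ℝ) / b, W b α g (1 / b)), ?_⟩
  · refine lt_of_le_of_lt (csInf_le ⟨-(Real.sin θ * (M / (1 - sc b α) + L)), fun p hp =>
      (abs_le.mp (hbd p hp)).1⟩ (hmem 0 ⟨le_rfl, zero_le_one⟩)) ?_
    exact mul_lt_mul_of_pos_left ((hc 0).2 h1b0) hs0
  · refine lt_of_lt_of_le ?_ (le_csSup ⟨(Real.sin θ * (M / (1 - sc b α) + L)), fun p hp =>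
      (abs_le.mp (hbd p hp)).2⟩ (hmem 1 ⟨zero_le_one, le_rfl⟩))
    exact mul_lt_mul_of_pos_left ((hc 1).1 h1b1) hs0
  · ext ⟨x, y⟩
    simp only [mem_inter_iff, mem_preimage, mem_singleton_iff, Prod.mk.injEq]
    constructor
    · rintro ⟨⟨hx, hy⟩, h⟩
      simp only at hx hy
      subst hy
      rw [hP] at h
      have h' := mul_left_cancel₀ hs0.ne' h
      rcases lt_trichotomy x (1 / b) with h1 | h1 | h1
      · exact absurd h' ((hc x).2 h1).ne
      · exact ⟨h1, by rw [h1]⟩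
      · exact absurd h' ((hc x).1 h1).ne'
    · rintro ⟨hx, hy⟩
      rw [hy, hx]
      exact ⟨⟨⟨h1b0.le, h1b1.le⟩, rfl⟩, hP _⟩

/-- There is an open ball of functions having a non-extremal non-vertical slice which is a point. -/
theorem ball_single {b : ℕ} {α : ℝ} (hb : 2 ≤ b) (hα : 0 < α) :
    ∃ (g₀ : LS) (ε : ℝ), 0 < ε ∧ ∀ g ∈ Metric.ball g₀ ε, (¬ ∃ c : ℝ, ∀ x, g.fn x = c) ∧
      ∃ θ t : ℝ, Real.sin θ ≠ 0 ∧ sInf (proj θ '' graphW b α g.fn) < t ∧
      t < sSup (proj θ '' graphW b α g.fn) ∧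
      ∃ p, graphW b α g.fn ∩ proj θ ⁻¹' {t} = {p} := by
  have hs := sc_pos (α := α) hb
  have hs1 := sc_lt hb hα
  have hb0 : (0:ℝ) < b := by exact_mod_cast (by omega : 0 < b)
  have hb2 : (2:ℝ) ≤ b := by exact_mod_cast hb
  obtain ⟨j, hj⟩ := exists_pow_lt_of_lt_one
    (show 0 < (1 - sc b α) / (2 * b) from div_pos (by linarith) (by linarith)) hs1
  have hj' : sc b α ^ (j + 1) ≤ (1 - sc b α) / (2 * b) :=
    (pow_le_pow_of_le_one hs.le hs1.le (Nat.le_succ j)).trans hj.le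
  set δ : ℝ := 1 / (4 * (b:ℝ) ^ j) with hδ
  have hbj : (1:ℝ) ≤ (b:ℝ) ^ j := one_le_pow₀ (by linarith)
  have hδ0 : 0 < δ := by positivity
  have hδ4 : δ ≤ 1 / 4 := by
    rw [hδ]
    apply one_div_le_one_div_of_le (by norm_num)
    linarith
  have hδb : (b:ℝ) ^ j * δ ≤ 1 / 2 := by
    have : (b:ℝ) ^ j * δ = 1 / 4 := by
      rw [hδ]; field_simp
    rw [this]; norm_num
  set ε : ℝ := min 1 ((1 - sc b α) * δ / (4 * b)) with hε
  have hε0 : 0 < ε := lt_min one_pos (div_pos (mul_pos (by linarith) hδ0) (by linarith))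
  have hε1 : ε ≤ 1 := min_le_left _ _
  have hε3 : ε ≤ (1 - sc b α) * δ / (4 * b) := min_le_right _ _
  have hε2 : 2 * ε / (1 - sc b α) ≤ δ / (2 * b) := by
    rw [div_le_iff₀ (by linarith)]
    calc 2 * ε ≤ 2 * ((1 - sc b α) * δ / (4 * b)) := by linarith
      _ = δ / (2 * b) * (1 - sc b α) := by field_simp; ring
  have hε4 : 2 * ε < δ := by
    have h1 : (1 - sc b α) * δ / (4 * b) ≤ δ / 8 := by
      rw [div_le_div_iff₀ (by linarith) (by norm_num)]
      nlinarith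
    linarith
  have hG : LipPer (g0 δ) := ⟨g0_per δ, 2, LipschitzWith.of_dist_le_mul fun x y => by
    rw [Real.dist_eq, Real.dist_eq]
    exact g0_lip δ x y⟩
  refine ⟨LS.mk (g0 δ) hG, ε, hε0, ?_⟩
  intro g hg
  rw [Metric.mem_ball, dist_eq_norm] at hg
  set h : ℝ → ℝ := (g - LS.mk (g0 δ) hG).fn with hh
  have hnorm : supN h + lipN h < ε := hg
  have h1 : ∀ x, |h x| ≤ ε := fun x => by
    have := le_supN (g - LS.mk (g0 δ) hG).lipPer x
    have h2 := lipN_nonneg h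
    rw [← hh] at this
    linarith
  have h2 : ∀ x y, |h x - h y| ≤ ε * |x - y| := fun x y => by
    have := le_lipN (g - LS.mk (g0 δ) hG).lipPer x y
    rw [← hh] at this
    have h3 := supN_nonneg h
    exact this.trans (mul_le_mul_of_nonneg_right (by linarith) (abs_nonneg _))
  have hgf : g.fn = fun x => g0 δ x + h x := by
    funext x
    rw [hh, LS.sub_fn, LS.mk_fn]
    ring
  obtain ⟨M, hM⟩ := g.lipPer.bdd
  obtain ⟨K, hK0, hK⟩ := g.lipPer.lip
  constructor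
  · rintro ⟨c, hc⟩
    have e1 := hc δ
    have e2 := hc 0
    rw [hgf] at e1 e2
    simp only [g0_zero] at e2
    simp only [g0_small hδ0 hδ4 hδ0.le le_rfl] at e1
    have e3 := abs_le.mp (h1 δ)
    have e4 := abs_le.mp (h1 0)
    linarith [e3.1, e4.2]
  · have hp := pos_side hb hα hj' hδ0 hδ4 hδb hε1 hε2 h1 h2
    have hn := neg_side hb hα hj' hδ0 hδ4 hδb hε1 hε2 h1 h2
    rw [← hgf] at hp hn
    obtain ⟨L, hL, hc⟩ := crossing hb hα hδ0 hM g.lipPer.1 hK hp hn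
    exact slice_single hb hα hM hL hc

end Pool.Agent.R733.Wei
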